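import Pool.Agent.Q282.AE.Fin

/-!
# Boxes of families of integer polynomials and their reductions
-/

set_option autoImplicit false
set_option linter.unusedSectionVars false

namespace Q282AZ

open Finset MvPolynomial

/-- the exponents of degree at most `N` -/
abbrev Mon (M N : ℕ) : Type := {m : Fin M →₀ ℕ // m.degree ≤ N}

instance instMon (M N : ℕ) : Finite (Mon M N) := by
  refine Finite.of_injective (fun m : Mon M N => fun i : Fin M => (⟨m.1 i, Nat.lt_succ_of_le ((Finsupp.le_degree i m.1).trans m.2)⟩ : Fin (N + 1))) ?_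
  intro m m' h
  apply Subtype.ext
  ext i
  have := congrFun h i
  exact Fin.mk.inj_iff.1 this

noncomputable instance instFMon (M N : ℕ) : Fintype (Mon M N) := Fintype.ofFinite _

section

variable {M : ℕ} {S : Type} {R : Type} [CommRing R]

/-- the polynomials with given coefficients -/
noncomputable def dec (N : ℕ) (g : S × Mon M N → R) (s : S) : MvPolynomial (Fin M) R := ∑ m : Mon M N, monomial m.1 (g (s, m))

lemma coeff_dec (N : ℕ) (g : S × Mon M N → R) (s : S) (m : Mon M N) : coeff m.1 (dec N g s) = g (s, m) := by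
  classical
  unfold dec
  rw [coeff_sum, sum_eq_single m]
  · rw [coeff_monomial, if_pos rfl]
  · intro m' _ hne
    rw [coeff_monomial, if_neg]
    intro h
    exact hne (Subtype.ext h)
  · intro h
    exact absurd (mem_univ _) h

lemma coeff_dec' (N : ℕ) (g : S × Mon M N → R) (s : S) (m : Fin M →₀ ℕ) (hm : ¬ m.degree ≤ N) : coeff m (dec N g s) = 0 := by
  classical
  unfold dec
  rw [coeff_sum]
  refine sum_eq_zero fun m' _ => ?_
  rw [coeff_monomial, if_neg]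
  intro h
  exact hm (h ▸ m'.2)

lemma deg_le_iff (p : MvPolynomial (Fin M) R) (N : ℕ) : p.totalDegree ≤ N ↔ ∀ m : Fin M →₀ ℕ, ¬ m.degree ≤ N → coeff m p = 0 := by
  constructor
  · intro h m hm
    by_contra h0
    exact hm ((le_totalDegree (mem_support_iff.2 h0)).trans h)
  · intro h
    unfold totalDegree
    refine Finset.sup_le fun m hm => ?_
    by_contra h0
    exact mem_support_iff.1 hm (h m h0)

lemma deg_dec (N : ℕ) (g : S × Mon M N → R) (s : S) : (dec N g s).totalDegree ≤ N := by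
  rw [deg_le_iff]
  exact fun m hm => coeff_dec' N g s m hm

lemma dec_coeff (N : ℕ) (c : S → MvPolynomial (Fin M) R) (hc : ∀ s, (c s).totalDegree ≤ N) :
    dec N (fun k => coeff k.2.1 (c k.1)) = c := by
  funext s
  ext m
  by_cases hm : m.degree ≤ N
  · exact coeff_dec N _ s ⟨m, hm⟩
  · rw [coeff_dec' N _ s m hm, (deg_le_iff (c s) N).1 (hc s) m hm]

lemma dec_inj (N : ℕ) : Function.Injective (dec N : (S × Mon M N → R) → S → MvPolynomial (Fin M) R) := by
  intro g g' h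
  funext k
  rw [← coeff_dec N g k.1 k.2, ← coeff_dec N g' k.1 k.2, h]

lemma map_dec {R' : Type} [CommRing R'] (φ : R →+* R') (N : ℕ) (g : S × Mon M N → R) :
    (fun s => map φ (dec N g s)) = dec N fun k => φ (g k) := by
  funext s
  unfold dec
  rw [map_sum]
  exact sum_congr rfl fun m _ => map_monomial _ _ _

/-- families of degree at most `N` and their coefficients -/
lemma ncard_deg (N : ℕ) (Q : (S → MvPolynomial (Fin M) R) → Prop) :
    Set.ncard {c : S → MvPolynomial (Fin M) R | (∀ s, (c s).totalDegree ≤ N) ∧ Q c} = Set.ncard {g : S × Mon M N → R | Q (dec N g)} := by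
  rw [← Set.ncard_image_of_injective _ (dec_inj (M := M) (S := S) (R := R) N)]
  congr 1
  ext c
  constructor
  · rintro ⟨h1, h2⟩
    refine ⟨fun k => coeff k.2.1 (c k.1), ?_, dec_coeff N c h1⟩
    show Q (dec N _)
    rw [dec_coeff N c h1]
    exact h2
  · rintro ⟨g, hg, rfl⟩
    exact ⟨fun s => deg_dec N g s, hg⟩

/-- the boxes of families of integer polynomials -/
def BoxZ (M : ℕ) (S : Type) (N : ℕ) (a : ℤ) (L : ℕ) : Set (S → MvPolynomial (Fin M) ℤ) :=
  {c | ∀ s, (c s).totalDegree ≤ N ∧ ∀ m : Fin M →₀ ℕ, m.degree ≤ N → a ≤ coeff m (c s) ∧ coeff m (c s) < a + L}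

lemma ncard_boxZ (N : ℕ) (a : ℤ) (L : ℕ) (Q : (S → MvPolynomial (Fin M) ℤ) → Prop) :
    Set.ncard {c ∈ BoxZ M S N a L | Q c} = Set.ncard {g : S × Mon M N → ℤ | (∀ k, g k ∈ Ico a (a + L)) ∧ Q (dec N g)} := by
  rw [← Set.ncard_image_of_injective _ (dec_inj (M := M) (S := S) (R := ℤ) N)]
  congr 1
  ext c
  constructor
  · rintro ⟨h1, h2⟩
    have h3 := dec_coeff N c fun s => (h1 s).1
    refine ⟨fun k => coeff k.2.1 (c k.1), ⟨fun k => ?_, ?_⟩, h3⟩
    · rw [mem_Ico]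
      exact (h1 k.1).2 k.2.1 k.2.2
    · rw [h3]
      exact h2
  · rintro ⟨g, ⟨hg, hg2⟩, rfl⟩
    refine ⟨fun s => ⟨deg_dec N g s, fun m hm => ?_⟩, hg2⟩
    have h1 := hg (s, ⟨m, hm⟩)
    rw [mem_Ico] at h1
    rw [coeff_dec N g s ⟨m, hm⟩]
    exact h1

end

/-- one residue class in an interval -/
lemma one_class (P : Finset Nat.Primes) (a : ℤ) (L : ℕ) (hQ : ∏ p ∈ P, (p : ℕ) ∣ L) (T : Finset ℤ) (hT : T ⊆ Ico a (a + L))
    (hT2 : ∀ z ∈ T, ∀ z' ∈ T, ∀ p ∈ P, ((p : ℕ) : ℤ) ∣ z - z') : T.card ≤ L / ∏ p ∈ P, (p : ℕ) := by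
  obtain ⟨Q, hQ'⟩ : ∃ Q : ℕ, Q = ∏ p ∈ P, (p : ℕ) := ⟨_, rfl⟩
  rw [← hQ'] at hQ ⊢
  have hQ0 : 0 < Q := by
    rw [hQ']
    exact prod_pos fun p _ => p.2.pos
  obtain ⟨t, rfl⟩ := hQ
  rw [Nat.mul_div_cancel_left t hQ0, ← card_range t]
  have hQz : (0 : ℤ) < Q := by exact_mod_cast hQ0
  refine card_le_card_of_injOn (fun z => ((z - a) / Q).toNat) ?_ ?_
  · intro z hz
    have h1 := hT hz
    rw [mem_Ico] at h1
    rw [mem_coe, mem_range]
    push_cast at h1
    have h2 : (z - a) / Q < t := by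
      rw [Int.ediv_lt_iff_lt_mul hQz]
      linarith [mul_comm (Q : ℤ) t]
    have h3 : 0 ≤ (z - a) / Q := Int.ediv_nonneg (by linarith) hQz.le
    show ((z - a) / (Q : ℤ)).toNat < t
    omega
  · intro z hz z' hz' h
    have h1 := hT hz
    have h1' := hT hz'
    rw [mem_Ico] at h1 h1'
    have h3 : 0 ≤ (z - a) / Q := Int.ediv_nonneg (by linarith) hQz.le
    have h3' : 0 ≤ (z' - a) / Q := Int.ediv_nonneg (by linarith) hQz.le
    have h4 : (z - a) / (Q : ℤ) = (z' - a) / Q := by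
      have h5 : ((z - a) / (Q : ℤ)).toNat = ((z' - a) / (Q : ℤ)).toNat := h
      omega
    have h6 : (Q : ℤ) ∣ z - z' := by
      rw [hQ', Nat.cast_prod]
      refine Finset.prod_dvd_of_coprime ?_ fun p hp => hT2 z hz z' hz' p hp
      intro p hp p' hp' hne
      exact Nat.isCoprime_iff_coprime.2 ((Nat.coprime_primes p.2 p'.2).2 fun h => hne (Subtype.ext h))
    obtain ⟨w, hw⟩ := h6
    have h7 : z - a = (z' - a) + w * Q := by linarith [mul_comm (Q : ℤ) w]
    rw [h7, Int.add_mul_ediv_right _ _ hQz.ne'] at h4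
    have h8 : w = 0 := by linarith
    rw [h8, mul_zero] at hw
    linarith

open Classical in
/-- **The reductions of the families of a box are independent.** -/
theorem count (M : ℕ) (S : Type) [Fintype S] (P : Finset Nat.Primes) (N : ℕ) (a : ℤ) (L : ℕ)
    (hQ : ∏ p ∈ P, (p : ℕ) ∣ L) (Bad : (p : Nat.Primes) → (S → MvPolynomial (Fin M) (ZMod p)) → Prop) (δ : Nat.Primes → ℝ)
    (hB : ∀ p ∈ P, (Set.ncard {c : S → MvPolynomial (Fin M) (ZMod p) | (∀ s, (c s).totalDegree ≤ N) ∧ Bad p c} : ℝ) ≤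
      δ p * Set.ncard {c : S → MvPolynomial (Fin M) (ZMod p) | ∀ s, (c s).totalDegree ≤ N}) :
    (Set.ncard {c ∈ BoxZ M S N a L | ∀ p ∈ P, Bad p fun s => map (Int.castRingHom (ZMod p)) (c s)} : ℝ) ≤
      (∏ p ∈ P, δ p) * Set.ncard (BoxZ M S N a L) := by
  obtain ⟨n, hn⟩ : ∃ n : ℕ, n = Fintype.card (S × Mon M N) := ⟨_, rfl⟩
  have hne : ∀ p : {p // p ∈ P}, NeZero (p.1 : ℕ) := fun p => ⟨p.1.2.ne_zero⟩
  -- the box
  have hbox : (Set.ncard (BoxZ M S N a L) : ℝ) = (L : ℝ) ^ n := by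
    have h1 := ncard_boxZ (M := M) (S := S) N a L fun _ => True
    have h2 : {c ∈ BoxZ M S N a L | True} = BoxZ M S N a L := by
      ext c
      simp
    rw [h2] at h1
    rw [h1]
    have h3 : {g : S × Mon M N → ℤ | (∀ k, g k ∈ Ico a (a + L)) ∧ True} = ((Fintype.piFinset fun _ : S × Mon M N => Ico a (a + L)) : Set _) := by
      ext g
      simp
    rw [h3, Set.ncard_coe_finset, Fintype.card_piFinset, prod_const, card_univ, ← hn, Int.card_Ico]
    simp
  -- the reductions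
  obtain ⟨E, hE⟩ : ∃ E : (p : {p // p ∈ P}) → Finset (S × Mon M N → ZMod p.1), ∀ p, E p = univ.filter fun e => Bad p.1 (dec N e) :=
    ⟨fun p => univ.filter fun e => Bad p.1 (dec N e), fun _ => rfl⟩
  have hEc : ∀ p : {p // p ∈ P}, ((E p).card : ℝ) ≤ δ p.1 * ((p.1 : ℕ) : ℝ) ^ n := by
    intro p
    have h1 := hB p.1 p.2
    have h2 := ncard_deg (M := M) (S := S) (R := ZMod p.1) N fun _ => True
    have h3 : {c : S → MvPolynomial (Fin M) (ZMod p.1) | (∀ s, (c s).totalDegree ≤ N) ∧ True} = {c | ∀ s, (c s).totalDegree ≤ N} := by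
      ext c
      simp
    rw [h3] at h2
    have h4 : {g : S × Mon M N → ZMod p.1 | True} = ((univ : Finset (S × Mon M N → ZMod p.1)) : Set _) := by
      ext g
      simp
    rw [h4, Set.ncard_coe_finset, card_univ, Fintype.card_fun, ZMod.card, ← hn] at h2
    rw [ncard_deg, h2] at h1
    have h5 : {g : S × Mon M N → ZMod p.1 | Bad p.1 (dec N g)} = ((E p) : Set _) := by
      rw [hE]
      ext g
      simp
    rw [h5, Set.ncard_coe_finset] at h1
    push_cast at h1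
    exact h1
  obtain ⟨s, hs⟩ : ∃ s : Finset (S × Mon M N → ℤ), s = (Fintype.piFinset fun _ : S × Mon M N => Ico a (a + L)).filter
    fun g => ∀ p ∈ P, Bad p fun s' => map (Int.castRingHom (ZMod p)) (dec N g s') := ⟨_, rfl⟩
  have hcs : Set.ncard {c ∈ BoxZ M S N a L | ∀ p ∈ P, Bad p fun s => map (Int.castRingHom (ZMod p)) (c s)} = s.card := by
    rw [ncard_boxZ, ← Set.ncard_coe_finset, hs]
    congr 1
    ext g
    simp only [Set.mem_ofPred_eq, coe_filter, Fintype.mem_piFinset]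
  obtain ⟨Φ, hΦ⟩ : ∃ Φ : (S × Mon M N → ℤ) → (p : {p // p ∈ P}) → S × Mon M N → ZMod p.1, ∀ g p k, Φ g p k = ((g k : ℤ) : ZMod p.1) :=
    ⟨fun g p k => ((g k : ℤ) : ZMod p.1), fun _ _ _ => rfl⟩
  have hmaps : ∀ g ∈ s, Φ g ∈ Fintype.piFinset E := by
    intro g hg
    rw [hs, mem_filter] at hg
    rw [Fintype.mem_piFinset]
    intro p
    rw [hE, mem_filter]
    refine ⟨mem_univ _, ?_⟩
    have h1 := hg.2 p.1 p.2
    rw [map_dec] at h1
    have h2 : Φ g p = fun k => Int.castRingHom (ZMod p.1) (g k) := by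
      funext k
      rw [hΦ]
      rfl
    rw [h2]
    exact h1
  have hfib : ∀ b ∈ Fintype.piFinset E, (s.filter fun g => Φ g = b).card ≤ (L / ∏ p ∈ P, (p : ℕ)) ^ n := by
    intro b _
    have h1 : (s.filter fun g => Φ g = b) ⊆ Fintype.piFinset fun k : S × Mon M N =>
        (Ico a (a + L)).filter fun z : ℤ => ∀ p : {p // p ∈ P}, ((z : ℤ) : ZMod p.1) = b p k := by
      intro g hg
      rw [mem_filter] at hg
      obtain ⟨h2, h3⟩ := hg
      rw [hs, mem_filter] at h2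
      rw [Fintype.mem_piFinset] at h2 ⊢
      intro k
      rw [mem_filter]
      refine ⟨h2.1 k, fun p => ?_⟩
      rw [← h3, hΦ]
    refine (card_le_card h1).trans ?_
    rw [Fintype.card_piFinset]
    refine (prod_le_prod' (g := fun _ => L / ∏ p ∈ P, (p : ℕ)) fun k _ => ?_).trans (le_of_eq ?_)
    · refine one_class P a L hQ _ (filter_subset _ _) ?_
      intro z hz z' hz' p hp
      rw [mem_filter] at hz hz'
      have h2 := hz.2 ⟨p, hp⟩
      have h3 := hz'.2 ⟨p, hp⟩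
      rw [← h3] at h2
      have h4 := (ZMod.intCast_eq_intCast_iff_dvd_sub _ _ _).1 h2.symm
      exact h4
    · rw [prod_const, card_univ, ← hn]
  have h1 := card_le_mul_card_image_of_maps_to hmaps _ hfib
  have h2 : (s.card : ℝ) ≤ ((L / ∏ p ∈ P, (p : ℕ) : ℕ) : ℝ) ^ n * ∏ p : {p // p ∈ P}, ((E p).card : ℝ) := by
    rw [Fintype.card_piFinset] at h1
    exact_mod_cast h1
  rw [hcs, hbox]
  refine h2.trans ?_
  have h3 : ∏ p : {p // p ∈ P}, ((E p).card : ℝ) ≤ ∏ p : {p // p ∈ P}, (δ p.1 * ((p.1 : ℕ) : ℝ) ^ n) :=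
    prod_le_prod (fun p _ => Nat.cast_nonneg _) fun p _ => hEc p
  have h4 : ∏ p : {p // p ∈ P}, (δ p.1 * ((p.1 : ℕ) : ℝ) ^ n) = (∏ p ∈ P, δ p) * ((∏ p ∈ P, (p : ℕ) : ℕ) : ℝ) ^ n := by
    rw [prod_mul_distrib]
    have h5 : ∏ p : {p // p ∈ P}, δ p.1 = ∏ p ∈ P, δ p := prod_coe_sort P δ
    have h6 : ∏ p : {p // p ∈ P}, ((p.1 : ℕ) : ℝ) ^ n = ∏ p ∈ P, ((p : ℕ) : ℝ) ^ n := prod_coe_sort P fun p : Nat.Primes => ((p : ℕ) : ℝ) ^ n
    rw [h5, h6, prod_pow]
    push_cast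
    rfl
  rw [h4] at h3
  calc ((L / ∏ p ∈ P, (p : ℕ) : ℕ) : ℝ) ^ n * ∏ p : {p // p ∈ P}, ((E p).card : ℝ) ≤
      ((L / ∏ p ∈ P, (p : ℕ) : ℕ) : ℝ) ^ n * ((∏ p ∈ P, δ p) * ((∏ p ∈ P, (p : ℕ) : ℕ) : ℝ) ^ n) := mul_le_mul_of_nonneg_left h3 (by positivity)
    _ = (∏ p ∈ P, δ p) * (((L / ∏ p ∈ P, (p : ℕ) : ℕ) : ℝ) * ((∏ p ∈ P, (p : ℕ) : ℕ) : ℝ)) ^ n := by
      rw [mul_pow]
      ring
    _ = _ := by
      congr 2
      have h5 := Nat.div_mul_cancel hQ
      exact_mod_cast h5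

end Q282AZ
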