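import Pool.Agent.Q282.AZ.Red

/-!
# Complete intersections through linear subspaces, second form
-/

set_option autoImplicit false
set_option linter.unusedSectionVars false

namespace Q282AZ

open Finset MvPolynomial
open scoped LinearAlgebra.Projectivization
open Q282GH (zeros Through)
open Q282GP (oc tt vv TT kun coh)
open Q282AE

/-- **All complete intersections through linear subspaces.** -/
theorem almost_lin' {k : Type} [Field k] [Finite k] {M : ℕ} {A : Type} [Fintype A] {ι : A → Type} [∀ a, Fintype (ι a)]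
    (D : ℕ) (hD : 1 ≤ D) (r : ℕ) (hr : 1 ≤ r) (hA : Fintype.card A = r)
    (ν : ℕ) (hν : 1 ≤ ν) (i : ℕ) (hM : 1 ≤ M) {d : A → ℕ} {s m' : ℕ} (hm' : 2 * m' ≤ D)
    (l : Fin s → Fin (D + r - m') → Fin (D + r + 1) → MvPolynomial (Fin M) k)
    {f : (a : A) → ι a → MvPolynomial (Fin (D + r + 1)) (MvPolynomial (Fin M) k)}
    (hd : ∀ a, s + 2 * ν ≤ d a + 1) (hf : ∀ a, Through (pforms l) (d a) (f a))
    (Δ : MvPolynomial (Σ a, ι a) (MvPolynomial (Fin M) k)) (hΔ : Δ ≠ 0) (b B₂ κ : ℕ) (B₀ : ℝ)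
    (Fm : ℕ → Type) [∀ m, Field (Fm m)] [∀ m, Algebra k (Fm m)] [∀ m, Finite (Fm m)] (hF : ∀ m, 1 ≤ m → Module.finrank k (Fm m) = m)
    (hl : ∀ m, 1 ≤ m → ∀ x : Fin M → Fm m, map (ev x) Δ ≠ 0 → Subspaces x l) :
    ∃ C : ℝ, ∀ N : ℕ, (Set.ncard {c : (Σ a, ι a) → MvPolynomial (Fin M) k | (∀ s, (c s).totalDegree ≤ N) ∧
        Exceptional Fm (fun _ => 1) D r b ν i ∅ f Δ (∑ j ∈ range (ν + 1), TT (fun _ => 1) D r ν i j * (if 2 * m' = D then s else 0) ^ j)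
          B₂ (B₀ * (N + 1) ^ κ) c} : ℝ) * (Nat.card k : ℝ) ^ (M * ((N + 1) / 2)) ≤
      C * (N + 1) * Set.ncard {c : (Σ a, ι a) → MvPolynomial (Fin M) k | ∀ s, (c s).totalDegree ≤ N} := by
  classical
  have : Fintype k := Fintype.ofFinite k
  have : ∀ m, Fintype (Fm m) := fun m => Fintype.ofFinite _
  obtain ⟨B, hB0, hB⟩ := generic_count Δ hΔ
  obtain ⟨z, hz⟩ : ∃ z : ℕ, z = if 2 * m' = D then s else 0 := ⟨_, rfl⟩
  rw [← hz]
  obtain ⟨c₀, hc₀⟩ : ∃ c₀ : ℝ, c₀ = 3 * s + 2 * s ^ 2 := ⟨_, rfl⟩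
  have hc₀0 : 0 ≤ c₀ := by
    rw [hc₀]
    positivity
  have hzs : (z : ℝ) ≤ s := by
    rw [hz]
    split_ifs
    · exact le_rfl
    · push_cast
      exact Nat.cast_nonneg _
  obtain ⟨C₂, hC₂⟩ : ∃ C₂ : ℝ, C₂ = c₀ * ν * (1 + s + c₀) ^ ν := ⟨_, rfl⟩
  have hC₂0 : 0 ≤ C₂ := by
    rw [hC₂]
    positivity
  obtain ⟨C₃, hC₃⟩ : ∃ C₃ : ℝ, C₃ = C₂ * (1 + B) + (1 + s) ^ ν * B := ⟨_, rfl⟩
  have hC₃0 : 0 ≤ C₃ := by
    rw [hC₃]
    positivity
  -- one point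
  have hpt : ∀ m, 1 ≤ m → ∀ x : Fin M → Fm m, map (ev x) Δ ≠ 0 →
      |(zeros (ev x) (∅ ∪ Set.range (pforms l)) : ℝ) / Real.sqrt (Nat.card (Fm m)) ^ D - z| ≤ c₀ / Real.sqrt (Nat.card (Fm m)) := by
    intro m hm x hx
    have h1 := subspaces_count (m := m') x l (hl m hm x hx) (by omega)
    rw [← Nat.card_eq_fintype_card] at h1
    obtain ⟨u, hu⟩ : ∃ u : ℝ, u = Real.sqrt (Nat.card (Fm m)) := ⟨_, rfl⟩
    have hp1 : (1 : ℝ) ≤ Nat.card (Fm m) := by exact_mod_cast Nat.card_pos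
    have hu1 : 1 ≤ u := by
      rw [hu]
      exact Real.one_le_sqrt.2 hp1
    have hu0 : 0 < u := by linarith
    have hup : (Nat.card (Fm m) : ℝ) = u ^ 2 := by
      rw [hu, Real.sq_sqrt (by linarith)]
    rw [hup] at h1
    rw [← hu]
    obtain ⟨Z, hZ⟩ : ∃ Z : ℝ, Z = (zeros (ev x) (∅ ∪ Set.range (pforms l)) : ℝ) := ⟨_, rfl⟩
    have hZ0 : 0 ≤ Z := by
      rw [hZ]
      exact Nat.cast_nonneg _
    rw [← hZ] at h1 ⊢
    have hs0 : (0 : ℝ) ≤ s := Nat.cast_nonneg _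
    by_cases hD2 : 2 * m' = D
    · have h2 : z = s := by rw [hz, if_pos hD2]
      rw [h2]
      have h3 : (u ^ 2) ^ m' = u ^ D := by rw [← pow_mul, hD2]
      rw [h3] at h1
      have huD : 0 < u ^ D := pow_pos hu0 D
      have h4 : Z / u ^ D - s = (Z - s * u ^ D) / u ^ D := by
        field_simp
      rw [h4, abs_div, abs_of_pos huD, div_le_iff₀ huD]
      refine h1.trans ?_
      have h5 : u ^ D / u ^ 2 ≤ u ^ D / u := by
        refine div_le_div_of_nonneg_left huD.le hu0 ?_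
        nlinarith
      have h6 : 2 * (s : ℝ) + 2 * s ^ 2 ≤ c₀ := by
        rw [hc₀]
        linarith
      calc (2 * (s : ℝ) + 2 * s ^ 2) * (u ^ D / u ^ 2) ≤ c₀ * (u ^ D / u) := mul_le_mul h6 h5 (by positivity) hc₀0
        _ = _ := by ring
    · have h2 : z = 0 := by rw [hz, if_neg hD2]
      rw [h2]
      have h3 : (u ^ 2) ^ m' * u ≤ u ^ D := by
        rw [← pow_mul, ← pow_succ]
        exact pow_le_pow_right₀ hu1 (by omega)
      have huD : 0 < u ^ D := pow_pos hu0 D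
      have hum : 0 < (u ^ 2) ^ m' := by positivity
      have h4 : (u ^ 2) ^ m' / u ^ 2 ≤ (u ^ 2) ^ m' := div_le_self hum.le (by nlinarith)
      have h5 : Z ≤ c₀ * (u ^ 2) ^ m' := by
        have h6 := (abs_le.1 h1).2
        have h7 : (2 * (s : ℝ) + 2 * s ^ 2) * ((u ^ 2) ^ m' / u ^ 2) ≤ (2 * (s : ℝ) + 2 * s ^ 2) * (u ^ 2) ^ m' :=
          mul_le_mul_of_nonneg_left h4 (by positivity)
        rw [hc₀]
        linarith
      rw [Nat.cast_zero, sub_zero, abs_of_nonneg (by positivity), div_le_div_iff₀ huD hu0]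
      calc Z * u ≤ c₀ * (u ^ 2) ^ m' * u := mul_le_mul_of_nonneg_right h5 hu0.le
        _ = c₀ * ((u ^ 2) ^ m' * u) := by ring
        _ ≤ c₀ * u ^ D := mul_le_mul_of_nonneg_left h3 hc₀0
  have hY1 : ∀ m, 1 ≤ m → ∀ x : Fin M → Fm m, map (ev x) Δ ≠ 0 →
      (zeros (ev x) (∅ ∪ Set.range (pforms l)) : ℝ) / Real.sqrt (Nat.card (Fm m)) ^ D ≤ s + c₀ := by
    intro m hm x hx
    have h1 := (abs_le.1 (hpt m hm x hx)).2
    have hp1 : (1 : ℝ) ≤ Nat.card (Fm m) := by exact_mod_cast Nat.card_pos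
    have h2 : c₀ / Real.sqrt (Nat.card (Fm m)) ≤ c₀ := div_le_self hc₀0 (Real.one_le_sqrt.2 hp1)
    linarith
  have key := almost D hD r hr hA (fun _ => 1) rfl 0 (max (s + c₀) C₃) ν hν i hM (h := pforms l) (e := fun _ => s) (d := d) (f := f)
    (fun φ => pforms_hom l φ) (fun _ a => hd a) hf ∅ Δ hΔ (fun j => z ^ j) (pow_zero _) b B₂ κ B₀ Fm hF
    (fun m hm x _ => by
      have h1 : (zeros (ev x) (∅ : Set (MvPolynomial (Fin (D + r + 1)) (MvPolynomial (Fin M) k))) : ℝ) =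
          ∑ j ∈ range (D + r + 1), (Nat.card (Fm m) : ℝ) ^ j := by
        unfold zeros
        have h2 : Nat.card {P : ℙ (Fm m) (Fin (D + r + 1) → Fm m) //
            ∀ G ∈ (∅ : Set (MvPolynomial (Fin (D + r + 1)) (MvPolynomial (Fin M) k))), eval₂ (ev x) P.rep G = 0} =
            Nat.card (ℙ (Fm m) (Fin (D + r + 1) → Fm m)) :=
          Nat.card_congr (Equiv.subtypeUnivEquiv fun P G hG => absurd hG (Set.notMem_empty _))
        rw [h2, Projectivization.card_of_finrank (Fm m) _ (by rw [Module.finrank_fin_fun])]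
        push_cast
        rfl
      rw [h1]
      simp)
    (fun m hm x hx => by
      have hp0 : (0 : ℝ) < Nat.card (Fm m) := by exact_mod_cast Nat.card_pos
      have hs0 : 0 < Real.sqrt (Nat.card (Fm m)) ^ D := pow_pos (Real.sqrt_pos.2 hp0) D
      have h1 := hY1 m hm x hx
      rw [div_le_iff₀ hs0] at h1
      exact h1.trans (mul_le_mul_of_nonneg_right (le_max_left _ _) hs0.le))
    (fun m hm j hj1 hj2 => by
      have hp1 : (1 : ℝ) ≤ Nat.card (Fm m) := by exact_mod_cast Nat.card_pos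
      obtain ⟨u, hu⟩ : ∃ u : ℝ, u = Real.sqrt (Nat.card (Fm m)) := ⟨_, rfl⟩
      have hu1 : 1 ≤ u := by
        rw [hu]
        exact Real.one_le_sqrt.2 hp1
      have hu0 : 0 < u := by linarith
      obtain ⟨q, hq⟩ : ∃ q : ℝ, q = Nat.card (Fm m) := ⟨_, rfl⟩
      have hq0 : 0 < q := by linarith
      have h1 := hB (Fm m)
      have h2 : ∀ x : {x : Fin M → Fm m // map (ev x) Δ ≠ 0},
          |(zeros (ev x.1) (∅ ∪ Set.range (pforms l)) : ℝ) ^ j - (z : ℝ) ^ j * u ^ (D * j)| ≤ C₂ * u ^ (D * j) / u := by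
        intro x
        obtain ⟨Y, hY⟩ : ∃ Y : ℝ, Y = (zeros (ev x.1) (∅ ∪ Set.range (pforms l)) : ℝ) / u ^ D := ⟨_, rfl⟩
        have hY0 : 0 ≤ Y := by
          rw [hY]
          positivity
        have h3 : (zeros (ev x.1) (∅ ∪ Set.range (pforms l)) : ℝ) = Y * u ^ D := by
          rw [hY, div_mul_cancel₀ _ (pow_pos hu0 D).ne']
        have h4 := hpt m hm x.1 x.2
        have h5 := hY1 m hm x.1 x.2
        rw [← hu, ← hY] at h4 h5
        rw [h3, mul_pow, ← pow_mul, ← sub_mul, abs_mul, abs_of_pos (pow_pos hu0 (D * j))]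
        have h6 := abs_pow_sub_pow_le Y (z : ℝ) j
        have h7 : max |Y| |(z : ℝ)| ^ (j - 1) ≤ (1 + s + c₀) ^ ν := by
          have h8 : max |Y| |(z : ℝ)| ≤ 1 + s + c₀ := by
            rw [abs_of_nonneg hY0, abs_of_nonneg (Nat.cast_nonneg _)]
            exact max_le (by linarith) (by linarith)
          have h9 : (1 : ℝ) ≤ 1 + s + c₀ := by
            have : (0 : ℝ) ≤ s := Nat.cast_nonneg _
            linarith
          exact (pow_le_pow_left₀ (le_max_of_le_left (abs_nonneg _)) h8 _).trans (pow_le_pow_right₀ h9 (by omega))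
        have h8 : |Y ^ j - (z : ℝ) ^ j| ≤ C₂ / u := by
          refine h6.trans ?_
          have h9 : (j : ℝ) ≤ ν := by exact_mod_cast hj2
          calc |Y - z| * j * max |Y| |(z : ℝ)| ^ (j - 1) ≤ (c₀ / u) * ν * (1 + s + c₀) ^ ν :=
                mul_le_mul (mul_le_mul h4 h9 (Nat.cast_nonneg _) (by positivity)) h7 (by positivity) (by positivity)
            _ = C₂ / u := by
              rw [hC₂]
              ring
        calc |Y ^ j - (z : ℝ) ^ j| * u ^ (D * j) ≤ C₂ / u * u ^ (D * j) := mul_le_mul_of_nonneg_right h8 (by positivity)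
          _ = _ := by ring
      rw [finsum_eq_sum_of_fintype] at h1 ⊢
      rw [sum_const, nsmul_eq_mul, mul_one] at h1
      obtain ⟨G, hG⟩ : ∃ G : ℝ, G = ((univ : Finset {x : Fin M → Fm m // map (ev x) Δ ≠ 0}).card : ℝ) := ⟨_, rfl⟩
      rw [← hG, ← hu, ← hq] at h1
      rw [← hu, ← hq]
      have hG0 : 0 ≤ G := by
        rw [hG]
        exact Nat.cast_nonneg _
      have hG1 : G ≤ (1 + B) * q ^ M := by
        have h3 := (abs_le.1 h1).2
        have h4 : B * q ^ M / u ≤ B * q ^ M := div_le_self (by positivity) hu1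
        linarith
      have h3 : ∑ x : {x : Fin M → Fm m // map (ev x) Δ ≠ 0}, (zeros (ev x.1) (∅ ∪ Set.range (pforms l)) : ℝ) ^ j -
          ((z ^ j : ℕ) : ℝ) * (q ^ M * u ^ (D * j)) =
          ∑ x : {x : Fin M → Fm m // map (ev x) Δ ≠ 0}, ((zeros (ev x.1) (∅ ∪ Set.range (pforms l)) : ℝ) ^ j - (z : ℝ) ^ j * u ^ (D * j)) +
            (z : ℝ) ^ j * u ^ (D * j) * (G - q ^ M) := by
        rw [sum_sub_distrib, sum_const, nsmul_eq_mul, ← hG]
        push_cast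
        ring
      rw [h3]
      refine (abs_add_le _ _).trans ?_
      have h4 : |∑ x : {x : Fin M → Fm m // map (ev x) Δ ≠ 0}, ((zeros (ev x.1) (∅ ∪ Set.range (pforms l)) : ℝ) ^ j -
          (z : ℝ) ^ j * u ^ (D * j))| ≤ (1 + B) * q ^ M * (C₂ * u ^ (D * j) / u) := by
        refine (abs_sum_le_sum_abs _ _).trans ((sum_le_sum fun x _ => h2 x).trans ?_)
        rw [sum_const, nsmul_eq_mul, ← hG]
        exact mul_le_mul_of_nonneg_right hG1 (by positivity)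
      have h5 : |(z : ℝ) ^ j * u ^ (D * j) * (G - q ^ M)| ≤ (1 + s) ^ ν * u ^ (D * j) * (B * q ^ M / u) := by
        rw [abs_mul, abs_of_nonneg (by positivity)]
        refine mul_le_mul (mul_le_mul_of_nonneg_right ?_ (by positivity)) h1 (abs_nonneg _) (by positivity)
        have h6 : (1 : ℝ) ≤ 1 + s := by
          have : (0 : ℝ) ≤ s := Nat.cast_nonneg _
          linarith
        exact (pow_le_pow_left₀ (Nat.cast_nonneg _) (by linarith) j).trans (pow_le_pow_right₀ h6 hj2)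
      have h6 : C₃ * (q ^ M * u ^ (D * j)) / u ≤ max (s + c₀) C₃ * (q ^ M * u ^ (D * j)) / u :=
        div_le_div_of_nonneg_right (mul_le_mul_of_nonneg_right (le_max_right _ _) (by positivity)) hu0.le
      refine le_trans (le_trans (add_le_add h4 h5) (le_of_eq ?_)) h6
      rw [hC₃]
      ring)
  exact key



theorem almost_lin'' {k : Type} [Field k] [Finite k] {M : ℕ} {A : Type} [Fintype A] {ι : A → Type} [∀ a, Fintype (ι a)]
    (D : ℕ) (hD : 1 ≤ D) (r : ℕ) (hr : 1 ≤ r) (hA : Fintype.card A = r)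
    (ν : ℕ) (hν : 1 ≤ ν) (i : ℕ) (hM : 1 ≤ M) {d : A → ℕ} {s m' : ℕ} (hm' : 2 * m' ≤ D)
    (l : Fin s → Fin (D + r - m') → Fin (D + r + 1) → MvPolynomial (Fin M) k)
    {f : (a : A) → ι a → MvPolynomial (Fin (D + r + 1)) (MvPolynomial (Fin M) k)}
    (hd : ∀ a, s + 2 * ν ≤ d a + 1) (hf : ∀ a, Through (pforms l) (d a) (f a))
    (Δ : MvPolynomial (Σ a, ι a) (MvPolynomial (Fin M) k)) (hΔ : Δ ≠ 0) (b B₂ κ : ℕ) (B₀ : ℝ)
    (Fm : ℕ → Type) [∀ m, Field (Fm m)] [∀ m, Algebra k (Fm m)] [∀ m, Finite (Fm m)] (hF : ∀ m, 1 ≤ m → Module.finrank k (Fm m) = m)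
    (hl : ∀ m, 1 ≤ m → ∀ x : Fin M → Fm m, map (ev x) Δ ≠ 0 → Subspaces x l)
    (E : Set (MvPolynomial (Fin (D + r + 1)) (MvPolynomial (Fin M) k))) (hE : E = ∅) :
    ∃ C : ℝ, ∀ N : ℕ, (Set.ncard {c : (Σ a, ι a) → MvPolynomial (Fin M) k | (∀ s, (c s).totalDegree ≤ N) ∧
        Exceptional Fm (fun _ => 1) D r b ν i E f Δ (∑ j ∈ range (ν + 1), TT (fun _ => 1) D r ν i j * (if 2 * m' = D then s else 0) ^ j)
          B₂ (B₀ * (N + 1) ^ κ) c} : ℝ) * (Nat.card k : ℝ) ^ (M * ((N + 1) / 2)) ≤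
      C * (N + 1) * Set.ncard {c : (Σ a, ι a) → MvPolynomial (Fin M) k | ∀ s, (c s).totalDegree ≤ N} := by
  subst hE
  exact almost_lin' D hD r hr hA ν hν i hM hm' l hd hf Δ hΔ b B₂ κ B₀ Fm hF hl

lemma finsum_pred {α : Type} (P Q : α → Prop) (h : ∀ x, P x ↔ Q x) (g : α → ℝ) : ∑ᶠ x : {x // P x}, g x.1 = ∑ᶠ x : {x // Q x}, g x.1 := by
  have : P = Q := funext fun x => propext (h x)
  subst this
  rfl

lemma red_pforms (p : ℕ) [Fact p.Prime] {M n s c : ℕ} (l : Fin s → Fin c → Fin (n + 1) → MvPolynomial (Fin M) ℤ) (φ : Fin s → Fin c) :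
    map (red p) (∏ i, ∑ j, C (l i (φ i) j) * X j) = pforms (fun i a j => red p (l i a j)) φ := by
  unfold pforms
  rw [map_prod]
  refine prod_congr rfl fun i _ => ?_
  unfold lform
  rw [map_sum]
  refine sum_congr rfl fun j _ => ?_
  rw [map_mul, map_C, map_X]

section

variable (P : Finset Nat.Primes) {M n : ℕ} {A : Type} [Fintype A] {ι : A → Type} [∀ a, Fintype (ι a)]

/-- the exceptional property of the reduction modulo `p` -/
def ExcZ (p : Nat.Primes) (w : ℕ → ℕ) (D r b ν i : ℕ) (E : Set (MvPolynomial (Fin (n + 1)) (MvPolynomial (Fin M) ℤ)))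
    (f : (a : A) → ι a → MvPolynomial (Fin (n + 1)) (MvPolynomial (Fin M) ℤ)) (Δ : MvPolynomial (Σ a, ι a) (MvPolynomial (Fin M) ℤ))
    (T B₂ : ℕ) (B₁ : ℝ) (c : (Σ a, ι a) → MvPolynomial (Fin M) ℤ) : Prop :=
  have : Fact (p : ℕ).Prime := ⟨p.2⟩
  Exceptional (k := ZMod p) (fun m => GaloisField p m) w D r b ν i (map (red p) '' E) (fun a j => map (red p) (f a j)) (map (red p) Δ)
    T B₂ B₁ fun s => red p (c s)

theorem combine {S : Type} [Fintype S] (Bad : ℕ → (p : Nat.Primes) → (S → MvPolynomial (Fin M) (ZMod p)) → Prop)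
    (hB : ∀ p ∈ P, ∃ C : ℝ, ∀ N : ℕ, (Set.ncard {c : S → MvPolynomial (Fin M) (ZMod p) | (∀ s, (c s).totalDegree ≤ N) ∧ Bad N p c} : ℝ) *
      (Nat.card (ZMod p) : ℝ) ^ (M * ((N + 1) / 2)) ≤ C * (N + 1) * Set.ncard {c : S → MvPolynomial (Fin M) (ZMod p) | ∀ s, (c s).totalDegree ≤ N}) :
    ∃ C : ℝ, ∀ (N : ℕ) (a : ℤ) (L : ℕ), ∏ p ∈ P, (p : ℕ) ∣ L →
      (Set.ncard {c ∈ BoxZ M S N a L | ∀ p ∈ P, Bad N p fun s => map (Int.castRingHom (ZMod p)) (c s)} : ℝ) *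
        ((∏ p ∈ P, (p : ℕ) : ℕ) : ℝ) ^ (M * ((N + 1) / 2)) ≤ C * (N + 1) ^ P.card * Set.ncard (BoxZ M S N a L) := by
  classical
  have hB' : ∀ p : Nat.Primes, ∃ C : ℝ, p ∈ P → ∀ N : ℕ, (Set.ncard {c : S → MvPolynomial (Fin M) (ZMod p) | (∀ s, (c s).totalDegree ≤ N) ∧ Bad N p c} : ℝ) *
      (Nat.card (ZMod p) : ℝ) ^ (M * ((N + 1) / 2)) ≤ C * (N + 1) * Set.ncard {c : S → MvPolynomial (Fin M) (ZMod p) | ∀ s, (c s).totalDegree ≤ N} := by
    intro p
    by_cases hp : p ∈ P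
    · obtain ⟨C, hC⟩ := hB p hp
      exact ⟨C, fun _ => hC⟩
    · exact ⟨0, fun h => absurd h hp⟩
  choose C hC using hB'
  refine ⟨∏ p ∈ P, C p, fun N a L hL => ?_⟩
  have h1 := count M S P N a L hL (Bad N) (fun p => C p * (N + 1) / ((p : ℕ) : ℝ) ^ (M * ((N + 1) / 2))) (fun p hp => by
    have h2 := hC p hp N
    have hp0 : (0 : ℝ) < ((p : ℕ) : ℝ) ^ (M * ((N + 1) / 2)) := pow_pos (by exact_mod_cast p.2.pos) _
    rw [Nat.card_zmod] at h2
    rw [div_mul_eq_mul_div, le_div_iff₀ hp0]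
    exact h2)
  have hPn : 0 < ∏ p ∈ P, (p : ℕ) := prod_pos fun p _ => p.2.pos
  have hP0 : (0 : ℝ) < ((∏ p ∈ P, (p : ℕ) : ℕ) : ℝ) ^ (M * ((N + 1) / 2)) := pow_pos (by exact_mod_cast hPn) _
  have h3 : ∏ p ∈ P, (C p * (N + 1) / ((p : ℕ) : ℝ) ^ (M * ((N + 1) / 2))) =
      (∏ p ∈ P, C p) * (N + 1) ^ P.card / ((∏ p ∈ P, (p : ℕ) : ℕ) : ℝ) ^ (M * ((N + 1) / 2)) := by
    rw [prod_div_distrib, prod_mul_distrib, prod_const, prod_pow]
    push_cast
    rfl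
  rw [h3, div_mul_eq_mul_div, le_div_iff₀ hP0] at h1
  exact h1

end

end Q282AZ
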