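import Pool.Agent.Q282.AZ.Box

/-!
# Reduction modulo a prime
-/

set_option autoImplicit false
set_option linter.unusedSectionVars false

namespace Q282AZ

open Finset MvPolynomial
open scoped LinearAlgebra.Projectivization
open Q282GH (zeros Through)
open Q282AE (ev member Good)

/-- the value of an integer polynomial at a point -/
noncomputable def val {F : Type} [CommRing F] {M : ℕ} (x : Fin M → F) : MvPolynomial (Fin M) ℤ →+* F := eval₂Hom (Int.castRingHom F) x

section

variable (p : ℕ) [Fact p.Prime] {M : ℕ}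

/-- the reduction of the coefficients -/
noncomputable def red : MvPolynomial (Fin M) ℤ →+* MvPolynomial (Fin M) (ZMod p) := map (Int.castRingHom (ZMod p))

lemma red_surj : Function.Surjective (red p (M := M)) := map_surjective _ (ZMod.ringHom_surjective _)

variable {p} {F : Type} [Field F] [Algebra (ZMod p) F]

lemma ev_red (x : Fin M → F) : (ev x).comp (red p) = val x := by
  refine MvPolynomial.ringHom_ext ?_ ?_
  · intro r
    exact RingHom.congr_fun (RingHom.ext_int (((ev x).comp (red p)).comp (C : ℤ →+* MvPolynomial (Fin M) ℤ)) ((val x).comp C)) r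
  · intro i
    rw [RingHom.comp_apply]
    unfold red val
    rw [map_X, Q282AE.ev_apply, aeval_X, coe_eval₂Hom, eval₂_X]

lemma ev_red' (x : Fin M → F) (c : MvPolynomial (Fin M) ℤ) : ev x (red p c) = val x c := by
  rw [← ev_red (p := p) x]
  rfl

lemma eval_red {n : ℕ} (x : Fin M → F) (y : Fin (n + 1) → F) (G : MvPolynomial (Fin (n + 1)) (MvPolynomial (Fin M) ℤ)) :
    eval₂ (ev x) y (map (red p) G) = eval₂ (val x) y G := by
  rw [eval₂_map, ev_red]

lemma zeros_red {n : ℕ} (x : Fin M → F) (E : Set (MvPolynomial (Fin (n + 1)) (MvPolynomial (Fin M) ℤ))) :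
    zeros (ev x) (map (red p) '' E) = zeros (val x) E := by
  unfold zeros
  refine Nat.card_congr (Equiv.subtypeEquivRight fun P => ?_)
  constructor
  · intro h G hG
    rw [← eval_red (p := p)]
    exact h _ ⟨G, hG, rfl⟩
  · rintro h _ ⟨G, hG, rfl⟩
    rw [eval_red]
    exact h G hG

lemma map_red_iff {S : Type} (x : Fin M → F) (Δ : MvPolynomial S (MvPolynomial (Fin M) ℤ)) :
    map (ev x) (map (red p) Δ) = map (val x) Δ := by
  rw [MvPolynomial.map_map, ev_red]

lemma good_red {A : Type} {ι : A → Type} [∀ a, Fintype (ι a)] (x : Fin M → F) (Δ : MvPolynomial (Σ a, ι a) (MvPolynomial (Fin M) ℤ))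
    (c : (Σ a, ι a) → MvPolynomial (Fin M) ℤ) :
    Good (map (red p) Δ) (fun s => red p (c s)) x ↔ eval₂ (val x) (fun s => val x (c s)) Δ ≠ 0 := by
  unfold Good
  rw [eval₂_map, ev_red]
  simp only [ev_red']

end

section

variable (p : ℕ) [Fact p.Prime] {M n : ℕ}

lemma member_red {A : Type} {ι : A → Type} [∀ a, Fintype (ι a)] (E : Set (MvPolynomial (Fin (n + 1)) (MvPolynomial (Fin M) ℤ)))
    (f : (a : A) → ι a → MvPolynomial (Fin (n + 1)) (MvPolynomial (Fin M) ℤ)) (c : (Σ a, ι a) → MvPolynomial (Fin M) ℤ) :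
    member (map (red p) '' E) (fun a j => map (red p) (f a j)) (fun s => red p (c s)) =
      map (red p) '' (Set.range (fun a => ∑ j, C (c ⟨a, j⟩) * f a j) ∪ E) := by
  unfold member
  rw [Set.image_union, ← Set.range_comp]
  congr 2
  funext a
  rw [Function.comp_apply, map_sum]
  refine sum_congr rfl fun j _ => ?_
  rw [map_mul, map_C]

attribute [local instance] MvPolynomial.gradedAlgebra

lemma comp_mem {J : Type} (h : J → MvPolynomial (Fin (n + 1)) (MvPolynomial (Fin M) ℤ)) {e : J → ℕ} (hh : ∀ j, (h j).IsHomogeneous (e j))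
    (G : MvPolynomial (Fin (n + 1)) (MvPolynomial (Fin M) ℤ)) (hG : G ∈ Ideal.span (Set.range h)) (d : ℕ) :
    homogeneousComponent d G ∈ Ideal.span (Set.range h) := by
  have h1 : (Ideal.span (Set.range h)).IsHomogeneous (homogeneousSubmodule (Fin (n + 1)) (MvPolynomial (Fin M) ℤ)) := by
    refine Ideal.homogeneous_span _ _ ?_
    rintro _ ⟨j, rfl⟩
    exact ⟨e j, hh j⟩
  exact homogeneousComponent_mem_of_mem h1 hG d

theorem through_red {J ι : Type} [Fintype ι] {h : J → MvPolynomial (Fin (n + 1)) (MvPolynomial (Fin M) ℤ)} {e : J → ℕ}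
    (hh : ∀ j, (h j).IsHomogeneous (e j)) {d : ℕ} {f : ι → MvPolynomial (Fin (n + 1)) (MvPolynomial (Fin M) ℤ)} (hf : Through h d f) :
    Through (fun j => map (red p) (h j)) d (fun j => map (red p) (f j)) := by
  have hr : Set.range (fun j => map (red p) (h j)) = map (red p) '' Set.range h := (Set.range_comp _ _)
  have hI : Ideal.span (Set.range fun j => map (red p) (h j)) = (Ideal.span (Set.range h)).map (map (red p)) := by
    rw [hr, Ideal.map_span]
  refine ⟨fun j => (hf.hom j).map _, fun j => ?_, fun G hG hG' => ?_⟩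
  · obtain ⟨m, hm⟩ := hf.mem j
    refine ⟨m, ?_⟩
    rw [hI, ← map_pow]
    exact Ideal.mem_map_of_mem _ hm
  · rw [hI] at hG'
    obtain ⟨G', hG1, hG2⟩ := (Ideal.mem_map_iff_of_surjective _ (map_surjective _ (red_surj p))).1 hG'
    have h1 := comp_mem h hh G' hG1 d
    obtain ⟨c, hc⟩ := hf.gen _ (homogeneousComponent_isHomogeneous d G') h1
    refine ⟨fun j => red p (c j), ?_⟩
    have h2 : map (red p) (homogeneousComponent d G') = G := by
      have h3 : map (red p) (homogeneousComponent d G') = homogeneousComponent d (map (red p) G') := by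
        ext m
        rw [coeff_map, coeff_homogeneousComponent, coeff_homogeneousComponent, coeff_map]
        split_ifs
        · rfl
        · rw [map_zero]
      rw [h3, hG2]
      exact homogeneousComponent_eq_self hG
    rw [← h2, hc, map_sum]
    refine sum_congr rfl fun j _ => ?_
    rw [map_mul, map_C]

end

end Q282AZ
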